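import Pool.Agent.Helper85.SlitCIA

/-!
# Vertical convexity of subdisc images under a slit condition: a counterexample

The domain is an affine image of the upper half-plane minus the ray `i[1, ∞)`, with base point
`w₀ = (500 + 51 i)/101`. It is convex in the direction of the imaginary axis and both components of
the domain slit along the horizontal line through `w₀` touch `w₀`, but for some `r < 1` the image of
the disc of radius `r` is not convex in the direction of the imaginary axis.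
-/

open Complex Set Metric

namespace Pool.Agent.Results.MP_d2819f_an.SlitCIADisproof

open Pool.Agent.Helper85.SlitCIA

/-! ## The counterexample -/

/-- **Main result**: a normalised univalent function `f` on the unit disc whose image `G₁` is
convex in the direction of the imaginary axis and such that every component of `G₁ ∖ ℝ` has `0`
on its boundary, but `f {|z| < r}` is not convex in the direction of the imaginary axis for some
`r < 1`. -/
theorem result :
    ∃ f : ℂ → ℂ, DifferentiableOn ℂ f (ball 0 1) ∧ InjOn f (ball 0 1) ∧ f 0 = 0 ∧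
      deriv f 0 = 1 ∧ IsCIA (f '' ball 0 1) ∧ SlitCondition (f '' ball 0 1) ∧
      ∃ r : ℝ, 0 < r ∧ r < 1 ∧ ¬ IsCIA (f '' ball 0 r) := by
  set L : ℂ := deriv h 0 with hL
  have hL0 : L ≠ 0 := deriv_h_ne
  have hl : 0 < ‖L‖ := norm_pos_iff.mpr hL0
  have hl' : ((‖L‖ : ℝ) : ℂ) ≠ 0 := by exact_mod_cast hl.ne'
  set ω : ℂ := (starRingEnd ℂ) L / (‖L‖ : ℝ) with hω
  have hωn : ‖ω‖ = 1 := by
    rw [hω, norm_div, RCLike.norm_conj, Complex.norm_real, norm_norm]
    exact div_self hl.ne'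
  have hω0 : ω ≠ 0 := by intro h; rw [h] at hωn; simp at hωn
  have hball : ∀ r : ℝ, (fun z => ω * z) '' ball 0 r = ball 0 r := by
    intro r
    apply Subset.antisymm
    · rintro _ ⟨z, hz, rfl⟩
      rw [mem_ball_zero_iff] at hz ⊢
      rw [norm_mul, hωn, one_mul]; exact hz
    · intro z hz
      refine ⟨ω⁻¹ * z, ?_, ?_⟩
      · rw [mem_ball_zero_iff] at hz ⊢
        rw [norm_mul, norm_inv, hωn, inv_one, one_mul]; exact hz
      · show ω * (ω⁻¹ * z) = z
        rw [← mul_assoc, mul_inv_cancel₀ hω0, one_mul]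
  set f : ℂ → ℂ := fun z => T (h 0) ‖L‖ (h (ω * z)) with hf
  have hfimg : ∀ r : ℝ, f '' ball 0 r = T (h 0) ‖L‖ '' (h '' ball 0 r) := by
    intro r
    conv_rhs => rw [← hball r]
    rw [image_image, image_image]
  have hmaps : ∀ z ∈ ball (0 : ℂ) 1, ω * z ∈ ball (0 : ℂ) 1 := by
    intro z hz
    rw [mem_ball_zero_iff] at hz ⊢
    rw [norm_mul, hωn, one_mul]; exact hz
  have hTinj : Function.Injective (T (h 0) ‖L‖) := by
    intro a b hab
    unfold T at hab
    rw [div_left_inj' hl'] at hab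
    exact sub_left_injective hab
  have hre0 : (h 0).re ≠ 0 := by
    rw [h_zero, show (101 : ℂ) = ((101 : ℝ) : ℂ) by norm_num, div_ofReal_re]
    simp
  have him0 : (h 0).im = 51 / 101 := by
    rw [h_zero, show (101 : ℂ) = ((101 : ℝ) : ℂ) by norm_num, div_ofReal_im]
    simp
  refine ⟨f, ?_, ?_, ?_, ?_, ?_, ?_, ?_⟩
  · intro z hz
    apply DifferentiableAt.differentiableWithinAt
    have h1 := h_differentiableAt (hmaps z hz)
    have h2 : DifferentiableAt ℂ (fun z => ω * z) z := by fun_prop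
    have h3 : DifferentiableAt ℂ (fun z => h (ω * z)) z := h1.comp z h2
    show DifferentiableAt ℂ (fun z => (h (ω * z) - h 0) / ((‖L‖ : ℝ) : ℂ)) z
    fun_prop
  · intro z hz z' hz' hzz
    have h1 := h_injOn (hmaps z hz) (hmaps z' hz') (hTinj hzz)
    exact mul_left_cancel₀ hω0 h1
  · show T (h 0) ‖L‖ (h (ω * 0)) = 0
    rw [mul_zero]
    unfold T
    simp
  · have h1 : HasDerivAt h L (ω * 0) := by
      rw [mul_zero]
      exact (h_differentiableAt (by simp)).hasDerivAt
    have h2 : HasDerivAt (fun z : ℂ => ω * z) ω 0 := by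
      simpa using (hasDerivAt_id (0 : ℂ)).const_mul ω
    have h3 : HasDerivAt (fun z => h (ω * z)) (L * ω) 0 := h1.comp (0 : ℂ) h2
    have h4 : HasDerivAt f ((L * ω) / ((‖L‖ : ℝ) : ℂ)) 0 :=
      (h3.sub_const (h 0)).div_const _
    rw [h4.deriv, hω]
    have h5 : L * (starRingEnd ℂ) L = ((‖L‖ : ℝ) : ℂ) ^ 2 := by
      rw [mul_conj, normSq_eq_norm_sq]; push_cast; ring
    rw [← mul_div_assoc, h5]
    field_simp
  · rw [hfimg, h_image]
    exact isCIA_G1 hl
  · rw [hfimg, h_image]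
    exact slit_G1 hl (by rw [him0]; norm_num) (by rw [him0]; norm_num) hre0
  · obtain ⟨z₁, hz₁, z₂, hz₂, z₃, hz₃, hn₁, hn₃, hr₁, hr₃, hi₁, hi₃⟩ := three_points
    refine ⟨‖z₂‖, lt_of_le_of_lt (norm_nonneg _) hn₁, by simpa using hz₂, ?_⟩
    intro hcia
    rw [hfimg] at hcia
    have hpre := (hcia (T (h 0) ‖L‖ (h z₂)).re).image Complex.im continuous_im.continuousOn
    have hmem : ∀ z ∈ ball (0 : ℂ) ‖z₂‖, (h z).re = (h z₂).re →
        (T (h 0) ‖L‖ (h z)).im ∈ Complex.im '' (T (h 0) ‖L‖ '' (h '' ball 0 ‖z₂‖) ∩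
          {w | w.re = (T (h 0) ‖L‖ (h z₂)).re}) := by
      intro z hz hre
      refine ⟨_, ⟨⟨_, ⟨z, hz, rfl⟩, rfl⟩, ?_⟩, rfl⟩
      show (T (h 0) ‖L‖ (h z)).re = (T (h 0) ‖L‖ (h z₂)).re
      rw [T_re, T_re, hre]
    have hm₁ := hmem z₁ (by simpa using hn₁) hr₁
    have hm₃ := hmem z₃ (by simpa using hn₃) hr₃
    have hord := hpre.ordConnected
    have hm₂ := hord.out hm₁ hm₃ (show (T (h 0) ‖L‖ (h z₂)).im ∈ Icc _ _ from by
      rw [T_im, T_im, T_im]
      constructor
      · gcongr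
      · gcongr)
    obtain ⟨w, ⟨⟨w', ⟨z, hz, rfl⟩, rfl⟩, hwre⟩, hwim⟩ := hm₂
    have h1 : T (h 0) ‖L‖ (h z) = T (h 0) ‖L‖ (h z₂) := Complex.ext hwre hwim
    have h2 := hTinj h1
    have hz1 : z ∈ ball (0 : ℂ) 1 := by
      rw [mem_ball_zero_iff] at hz hz₂ ⊢
      exact hz.trans hz₂
    have h3 := h_injOn hz1 hz₂ h2
    rw [h3, mem_ball_zero_iff] at hz
    exact lt_irrefl _ hz

end Pool.Agent.Results.MP_d2819f_an.SlitCIADisproof
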